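import Pool.Agent.helper29.JZ.Spec

set_option autoImplicit false

open Finset Polynomial Module

namespace Pool.Agent.helper25.JZ

open Pool.Agent.helper29.JZ Pool.Agent.helper97.FP FP97

theorem RZ2_hm (F P Q : ℂ[X]) : hm 1 F P Q = C (F.coeff 0) * P + C (F.coeff 1) * Q := by
  unfold hm
  rw [Finset.sum_range_succ, Finset.sum_range_one]
  simp

theorem RZ2_eval (F : ℂ[X]) (h : F.natDegree ≤ 1) (v : ℂ) :
    F.eval v = F.coeff 0 + F.coeff 1 * v := by
  rw [Polynomial.eval_eq_sum_range' (Nat.lt_succ_of_le h), Finset.sum_range_succ,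
    Finset.sum_range_one]
  simp

theorem RZ2_zero (F : ℂ[X]) (h : F.natDegree ≤ 1) (h0 : F.coeff 0 = 0) (h1 : F.coeff 1 = 0) :
    F = 0 := by
  ext n
  rcases n with _ | _ | n
  · simpa using h0
  · simpa using h1
  · rw [Polynomial.coeff_eq_zero_of_natDegree_lt (by omega)]
    simp

theorem RZ2_deg {P c R : ℂ[X]} (hR : R = P * c) (hc : c ≠ 0) (hP : P.natDegree = 1)
    (hRd : R.natDegree ≤ 1) : c.natDegree = 0 := by
  have hP0 : P ≠ 0 := by
    rintro rfl
    simp at hP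
  rw [hR, Polynomial.natDegree_mul hP0 hc, hP] at hRd
  omega

theorem jz_RZ2 : RZ2_stmt := by
  intro P Q P' Q' hco _ hRR hmax hmax' u v
  have hP'd : P'.natDegree ≤ 1 := by omega
  have hQ'd : Q'.natDegree ≤ 1 := by omega
  unfold RR at hRR
  rw [hmax', RZ2_hm, RZ2_hm] at hRR
  have he : P * (C (Q'.coeff 0) - X * C (P'.coeff 0)) = (X * C (P'.coeff 1) - C (Q'.coeff 1)) * Q := by
    linear_combination -hRR
  obtain ⟨c, hc1, hc2⟩ := prop_of_coprime hco he
  have hc0 : c ≠ 0 := by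
    rintro rfl
    rw [mul_zero] at hc1 hc2
    have a1 := congrArg (fun F : ℂ[X] => F.coeff 0) hc1
    have a2 := congrArg (fun F : ℂ[X] => F.coeff 1) hc1
    have a3 := congrArg (fun F : ℂ[X] => F.coeff 0) hc2
    have a4 := congrArg (fun F : ℂ[X] => F.coeff 1) hc2
    simp [Polynomial.coeff_X, Polynomial.coeff_C] at a1 a2 a3 a4
    have hP0 : P' = 0 := RZ2_zero P' hP'd a4 a2
    have hQ0 : Q' = 0 := RZ2_zero Q' hQ'd a3 a1
    rw [hP0, hQ0] at hmax'
    simp at hmax'
  have d1 : (X * C (P'.coeff 1) - C (Q'.coeff 1) : ℂ[X]).natDegree ≤ 1 := by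
    compute_degree
  have d2 : (C (Q'.coeff 0) - X * C (P'.coeff 0) : ℂ[X]).natDegree ≤ 1 := by
    compute_degree
  have hcd : c.natDegree = 0 := by
    have : P.natDegree = 1 ∨ Q.natDegree = 1 := by omega
    rcases this with h | h
    · exact RZ2_deg hc1 hc0 h d1
    · exact RZ2_deg hc2 hc0 h d2
  obtain ⟨c0, hcC⟩ : ∃ c0 : ℂ, c = C c0 := ⟨c.coeff 0, Polynomial.eq_C_of_natDegree_eq_zero hcd⟩
  have hc00 : c0 ≠ 0 := by
    rintro rfl
    rw [C_0] at hcC
    exact hc0 hcC
  have e1 := congrArg (fun F : ℂ[X] => F.eval u) hc1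
  have e2 := congrArg (fun F : ℂ[X] => F.eval u) hc2
  rw [hcC] at e1 e2
  simp only [eval_sub, eval_mul, eval_X, eval_C] at e1 e2
  have key : P'.eval v * u - Q'.eval v = c0 * (P.eval u * v - Q.eval u) := by
    rw [RZ2_eval P' hP'd, RZ2_eval Q' hQ'd]
    linear_combination v * e1 - e2
  constructor
  · intro h
    rw [h, sub_self, mul_zero] at key
    exact sub_eq_zero.1 key
  · intro h
    rw [h, sub_self] at key
    have := (mul_eq_zero.1 key.symm).resolve_left hc00
    exact sub_eq_zero.1 this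

end Pool.Agent.helper25.JZ
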